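import Pool.Agent.R590.KuForce

/-!
# A closed continuous image of an `(ω + 1)`-perfect set in which Player II never wins

The negative answer to both questions has three parts, and no hypothesis is assumed.

* There is a forcing notion all of whose conditions force `Hypothesis`. The forcing language is
  the one of `Pool.Agent.Helper669.Forcing`: a sentence is the set of the conditions which force
  it; `HypothesisN P` is the translation of the proposition `Hypothesis` into the forcing
  language (quantifiers over relations and functions become quantifiers over names).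
* `Hypothesis` says that there is a family of more than continuum many subsets of `ω₁` which has
  countably many traces on every countable ordinal.
* `Hypothesis` implies that for `κ = ℵ₁` there are an `(ω + 1)`-perfect set `D` and a closed set
  `E` onto which `D` can be mapped continuously, such that whenever `X ⊆ E` and `#X ≤ κ ^< κ`,
  there is `x₀` in `E \ X` such that Player II has no winning strategy in
  `G_κ(E, x₀, ω + 1)`, and `E \ X` is not `(ω + 1)`-perfect.
-/

set_option autoImplicit false

namespace Pool.Agent.Results.MP_b008e1_lc.KurepaBranches

open Cardinal Set Pool.Agent.R590.Kur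

theorem result :
    -- the hypothesis can be forced over every ground model
    (∃ (P : Type) (_ : Preorder P), Nonempty P ∧ ∀ p : P, p ∈ HypothesisN P) ∧
    -- the meaning of the hypothesis
    (Hypothesis ↔ ∃ (U : Type) (u : U → Set (ℵ₁ : Cardinal.{0}).ord.ToType),
      Function.Injective u ∧ 𝔠 < #U ∧ ∀ j, (range fun s => u s ∩ Iio j).Countable) ∧
    -- the hypothesis gives a counterexample
    (Hypothesis → ∃ κ : Cardinal.{0}, κ.IsRegular ∧ ℵ₀ < κ ∧
      ∃ D E : Set (Sp κ), Perf D ∧ IsClosed E ∧
        (∃ f : D → E, Continuous f ∧ Function.Surjective f) ∧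
        ∀ X : Set (Sp κ), X ⊆ E → #X ≤ κ ^< κ →
          (∃ x₀ ∈ E \ X, ¬ IIWins E x₀) ∧ ¬ Perf (E \ X)) := by
  refine ⟨exists_forcing, hypothesis_iff, fun h => ?_⟩
  obtain ⟨U, u, h1, h2, h3⟩ := hypothesis_iff.1 h
  refine ⟨ℵ₁, isRegular_aleph_one, aleph0_lt_aleph_one, Dx fun s => chr (u s),
    Br fun s => chr (u s), perf_Dx, isClosed_Br, exists_surj, fun X _ hX => ?_⟩
  exact second_example (fun s s' hs => h1 (chr_inj hs)) h2 (countable_traces h3) X hX

end Pool.Agent.Results.MP_b008e1_lc.KurepaBranches
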